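import Pool.Agent.H54.Damp.Weak

/-!
For every coercive self-adjoint operator `A` on a real Hilbert space the optimal velocity constant
`K(A,c)` of `u'' + c u' + A u = f` is finite and decreasing in the damping `c`.
-/

set_option autoImplicit false

open Pool.Agent.H54.Damp

theorem Pool.Agent.Results.MP_8bcfe8_an.MonotoneInDamping.result {H : Type*}
    [NormedAddCommGroup H] [InnerProductSpace ℝ H] [CompleteSpace H] (A : H →ₗ.[ℝ] H)
    (hA : IsSelfAdjoint A) (hc : IsCoerciveOp A) (c1 c2 : ℝ) (h1 : 0 < c1) (h12 : c1 < c2) :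
    optK A c2 ≤ optK A c1 ∧ optK A c1 < ⊤ :=
  ⟨optK_mono hA hc h1 h12, optK_lt_top hA hc h1⟩
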